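import Mathlib

/-!
# Even polynomials and their twists
-/

set_option autoImplicit false

open MvPolynomial

namespace Pool.Agent.X296.Hor

variable {F : Type*} [Field F] {n : ℕ}

/-- the twist of the even polynomial given by the polynomial `g` in the products `z_i z_j` -/
noncomputable def fd (g : MvPolynomial (Fin n × Fin n) F) (d : F) : MvPolynomial (Fin n) F :=
  aeval (fun x => C d * (X x.1 * X x.2)) g

lemma eval_fd (g : MvPolynomial (Fin n × Fin n) F) (d : F) (z : Fin n → F) :
    eval z (fd g d) = eval (fun x => d * (z x.1 * z x.2)) g := by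
  have h1 : (aeval z : MvPolynomial (Fin n) F →ₐ[F] F).comp
      (aeval fun x : Fin n × Fin n => C d * (X x.1 * X x.2)) =
      aeval fun x : Fin n × Fin n => d * (z x.1 * z x.2) := by
    apply MvPolynomial.algHom_ext
    intro o
    rw [AlgHom.comp_apply, aeval_X, aeval_X]
    simp
  have h2 := DFunLike.congr_fun h1 g
  rw [AlgHom.comp_apply, aeval_eq_eval, aeval_eq_eval] at h2
  exact h2

lemma prod_mono {α σ : Type*} (s : Finset α) (e : α → σ →₀ ℕ) (c : α → F) :
    ∏ x ∈ s, monomial (e x) (c x) = monomial (∑ x ∈ s, e x) (∏ x ∈ s, c x) := by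
  classical
  induction s using Finset.induction_on with
  | empty => simp
  | insert x s hx ih =>
    rw [Finset.prod_insert hx, Finset.sum_insert hx, Finset.prod_insert hx, ih, monomial_mul]

/-- the exponent of the product -/
noncomputable def ph (m : Fin n × Fin n →₀ ℕ) : Fin n →₀ ℕ :=
  ∑ x : Fin n × Fin n, m x • (Finsupp.single x.1 1 + Finsupp.single x.2 1)

/-- the total degree of an exponent -/
def dg (k : Fin n →₀ ℕ) : ℕ := ∑ i, k i

lemma dg_add (k l : Fin n →₀ ℕ) : dg (k + l) = dg k + dg l := by
  simp [dg, Finset.sum_add_distrib]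

lemma dg_ph (m : Fin n × Fin n →₀ ℕ) : dg (ph m) = 2 * ∑ x, m x := by
  unfold dg ph
  simp only [Finsupp.finsetSum_apply, Finsupp.smul_apply, Finsupp.add_apply, smul_eq_mul]
  rw [Finset.sum_comm, Finset.mul_sum]
  refine Finset.sum_congr rfl fun x _ => ?_
  rw [← Finset.mul_sum, Finset.sum_add_distrib]
  have h : ∀ j : Fin n, ∑ i, (Finsupp.single j 1 : Fin n →₀ ℕ) i = 1 := by
    intro j
    simp [Finsupp.single_apply]
  rw [h, h]
  ring

lemma fd_monomial (m : Fin n × Fin n →₀ ℕ) (a d : F) :
    fd (monomial m a) d = monomial (ph m) (a * d ^ ∑ x, m x) := by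
  unfold fd
  rw [aeval_monomial, Finsupp.prod_fintype _ _ (fun i => pow_zero _)]
  have h : ∀ x : Fin n × Fin n, (C d * (X x.1 * X x.2) : MvPolynomial (Fin n) F) ^ (m x) =
      monomial (m x • (Finsupp.single x.1 1 + Finsupp.single x.2 1)) (d ^ m x) := by
    intro x
    have h1 : (C d * (X x.1 * X x.2) : MvPolynomial (Fin n) F) =
        monomial (Finsupp.single x.1 1 + Finsupp.single x.2 1) d := by
      rw [X, X, monomial_mul, C_mul_monomial, mul_one, mul_one]
    rw [h1, monomial_pow]
  simp only [h]
  rw [prod_mono, algebraMap_eq, C_mul_monomial, Finset.prod_pow_eq_pow_sum]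
  rfl

lemma fd_add (p q : MvPolynomial (Fin n × Fin n) F) (d : F) : fd (p + q) d = fd p d + fd q d := by
  unfold fd
  rw [map_add]

/-- all exponents are even -/
theorem even_of_mem (g : MvPolynomial (Fin n × Fin n) F) :
    ∀ k ∈ (fd g 1).support, Even (dg k) := by
  classical
  induction g using MvPolynomial.induction_on' with
  | monomial m a =>
    intro k hk
    rw [fd_monomial] at hk
    have := support_monomial_subset hk
    rw [Finset.mem_singleton] at this
    rw [this, dg_ph]
    exact even_two_mul _
  | add p q hp hq =>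
    intro k hk
    rw [fd_add] at hk
    rcases Finset.mem_union.1 (support_add hk) with h | h
    · exact hp k h
    · exact hq k h

/-- the linear functional -/
noncomputable def La (d : F) (z : Fin n → F) : MvPolynomial (Fin n) F →ₗ[F] F :=
  (basisMonomials (Fin n) F).constr F fun k => d ^ (dg k / 2) * ∏ i, z i ^ k i

lemma La_monomial (d : F) (z : Fin n → F) (k : Fin n →₀ ℕ) (a : F) :
    La d z (monomial k a) = a * (d ^ (dg k / 2) * ∏ i, z i ^ k i) := by
  have h1 : (monomial k a : MvPolynomial (Fin n) F) = a • (basisMonomials (Fin n) F k) := by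
    rw [coe_basisMonomials, smul_monomial, smul_eq_mul, mul_one]
  rw [h1, map_smul, smul_eq_mul]
  congr 1
  exact (basisMonomials (Fin n) F).constr_basis F _ k

lemma La_eq (d : F) (z : Fin n → F) (f : MvPolynomial (Fin n) F) :
    La d z f = ∑ k ∈ f.support, coeff k f * (d ^ (dg k / 2) * ∏ i, z i ^ k i) := by
  conv_lhs => rw [f.as_sum]
  rw [map_sum]
  exact Finset.sum_congr rfl fun k _ => La_monomial d z k _

/-- **the expansion of the twist** -/
theorem eval_expand (g : MvPolynomial (Fin n × Fin n) F) (d : F) (z : Fin n → F) :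
    eval z (fd g d) = ∑ k ∈ (fd g 1).support,
      coeff k (fd g 1) * (d ^ (dg k / 2) * ∏ i, z i ^ k i) := by
  rw [← La_eq]
  induction g using MvPolynomial.induction_on' with
  | monomial m a =>
    rw [fd_monomial, fd_monomial, La_monomial, one_pow, mul_one, eval_monomial, dg_ph,
      Nat.mul_div_cancel_left _ two_pos, Finsupp.prod_fintype _ _ (fun i => pow_zero _)]
    ring
  | add p q hp hq =>
    rw [fd_add, fd_add, map_add, map_add, hp, hq]

end Pool.Agent.X296.Hor
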