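import Pool.Agent.X296.Hor.Sel
import Pool.Agent.X296.Kum.SAtools
import Pool.Agent.Y718.GY

/-!
# Free quotients of double covers of `(P¹)ⁿ`: nondegenerate points
-/

set_option autoImplicit false

open MvPolynomial

namespace Pool.Agent.X296.Hor

open Pool.Agent.H581R2 Pool.Agent.TH729.SQ Pool.Agent.Y718.X

/-- the indices of the coordinates `z_i z_j` and `w z_i` -/
abbrev QI (n : ℕ) : Type := (Fin n × Fin n) ⊕ Fin n

variable {n : ℕ}

section field

variable {F : Type*} [Field F]

/-- the points of the affine quotient -/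
def OnQ (g : MvPolynomial (Fin n × Fin n) F) (p : QI n → F) : Prop :=
  (∀ i j k l, p (Sum.inl (i, j)) * p (Sum.inl (k, l)) = p (Sum.inl (i, k)) * p (Sum.inl (j, l))) ∧
  (∀ i j, p (Sum.inl (i, j)) = p (Sum.inl (j, i))) ∧
  (∀ i j k, p (Sum.inr i) * p (Sum.inl (j, k)) = p (Sum.inr j) * p (Sum.inl (i, k))) ∧
  ∀ i j, p (Sum.inr i) * p (Sum.inr j) = p (Sum.inl (i, j)) * eval (fun x => p (Sum.inl x)) g

/-- the image of the point `(w, z)` of the twist `d w² = f_d(z)` -/
def img (d w : F) (z : Fin n → F) : QI n → F :=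
  Sum.elim (fun x => d * (z x.1 * z x.2)) fun i => d * w * z i

lemma img_onQ {g : MvPolynomial (Fin n × Fin n) F} {d w : F} {z : Fin n → F}
    (h : d * w ^ 2 = eval z (fd g d)) : OnQ g (img d w z) := by
  refine ⟨fun i j k l => ?_, fun i j => ?_, fun i j k => ?_, fun i j => ?_⟩
  · simp only [img, Sum.elim_inl]; ring
  · simp only [img, Sum.elim_inl]; ring
  · simp only [img, Sum.elim_inl, Sum.elim_inr]; ring
  · rw [eval_fd] at h
    simp only [img, Sum.elim_inl, Sum.elim_inr]
    rw [← h]
    ring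

lemma exists_img {g : MvPolynomial (Fin n × Fin n) F} {p : QI n → F} (hp : OnQ g p) (h0 : p ≠ 0) :
    ∃ (d w : F) (z : Fin n → F), d ≠ 0 ∧ p = img d w z ∧ d * w ^ 2 = eval z (fd g d) := by
  obtain ⟨h1, h2, h3, h4⟩ := hp
  have hi : ∃ i, p (Sum.inl (i, i)) ≠ 0 := by
    by_contra hcon
    push Not at hcon
    apply h0
    have hv : ∀ i j, p (Sum.inl (i, j)) = 0 := by
      intro i j
      have := h1 i j i j
      rw [hcon i, zero_mul] at this
      exact mul_self_eq_zero.1 this
    funext k
    rcases k with ⟨i, j⟩ | i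
    · exact hv i j
    · have := h4 i i
      rw [hcon i, zero_mul] at this
      exact mul_self_eq_zero.1 this
  obtain ⟨i, hi⟩ := hi
  set e := p (Sum.inl (i, i)) with he
  have hv : ∀ j l, p (Sum.inl (j, l)) = e * (p (Sum.inl (i, j)) / e * (p (Sum.inl (i, l)) / e)) := by
    intro j l
    have := h1 i i j l
    rw [← he] at this
    field_simp
    linear_combination this
  refine ⟨e, p (Sum.inr i) / e, fun j => p (Sum.inl (i, j)) / e, hi, ?_, ?_⟩
  · funext k
    rcases k with ⟨j, l⟩ | j
    · simp only [img, Sum.elim_inl]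
      exact hv j l
    · simp only [img, Sum.elim_inr]
      have := h3 j i i
      have h2' := h2 j i
      rw [h2', ← he] at this
      field_simp
      linear_combination this
  · rw [eval_fd]
    have h5 := h4 i i
    rw [← he] at h5
    have e1 : (fun x : Fin n × Fin n => e * (p (Sum.inl (i, x.1)) / e * (p (Sum.inl (i, x.2)) / e))) =
        fun x => p (Sum.inl x) := by
      funext x
      exact (hv x.1 x.2).symm
    rw [e1]
    have h8 : e * (p (Sum.inr i) / e) ^ 2 = p (Sum.inr i) * p (Sum.inr i) / e := by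
      field_simp
    rw [h8, h5]
    field_simp

/-- the points of the quotient over an algebraically closed field -/
theorem onQ_closed [IsAlgClosed F] (g : MvPolynomial (Fin n × Fin n) F) (p : QI n → F) :
    OnQ g p ↔ ∃ (w : F) (z : Fin n → F), w ^ 2 = eval (fun x => z x.1 * z x.2) g ∧
      (∀ i j, p (Sum.inl (i, j)) = z i * z j) ∧ ∀ i, p (Sum.inr i) = w * z i := by
  constructor
  · intro hp
    by_cases h0 : p = 0
    · obtain ⟨w, hw⟩ := IsAlgClosed.exists_pow_nat_eq (eval (fun _ => 0) g) (n := 2) (by norm_num)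
      refine ⟨w, 0, ?_, ?_, ?_⟩
      · rw [hw]
        simp
      · simp [h0]
      · simp [h0]
    · obtain ⟨d, w, z, hd, rfl, hu⟩ := exists_img hp h0
      obtain ⟨e, he⟩ := IsAlgClosed.exists_pow_nat_eq d (n := 2) (by norm_num)
      refine ⟨e * w, fun i => e * z i, ?_, ?_, ?_⟩
      · rw [mul_pow, he, hu, eval_fd]
        congr 2
        funext x
        rw [← he]
        ring
      · intro i j
        simp only [img, Sum.elim_inl]
        rw [← he]
        ring
      · intro i
        simp only [img, Sum.elim_inr]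
        rw [← he]
        ring
  · rintro ⟨w, z, h, h1, h2⟩
    have e : p = img 1 w z := by
      funext k
      rcases k with ⟨i, j⟩ | i
      · rw [h1]
        simp [img]
      · rw [h2]
        simp [img]
    rw [e]
    refine img_onQ ?_
    rw [eval_fd, one_mul, h]
    simp only [one_mul]

end field

/-- the rational points of the quotient -/
theorem onQ_iff {g : MvPolynomial (Fin n × Fin n) ℚ} (hg : Adm g) (p : QI n → ℚ) :
    OnQ g p ↔ ∃ (d : ℤ) (w : ℚ) (z : Fin n → ℚ), Squarefree d ∧
      (d : ℚ) * w ^ 2 = eval z (fd g (d : ℚ)) ∧ p = img (d : ℚ) w z := by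
  constructor
  · intro hp
    have key : ∃ (d w : ℚ) (z : Fin n → ℚ), d ≠ 0 ∧ p = img d w z ∧ d * w ^ 2 = eval z (fd g d) := by
      by_cases h0 : p = 0
      · have hc : coeff 0 (fd g 1) ≠ 0 := hg.corner 0 fun i => Or.inl rfl
        have h1 : coeff 0 (fd g 1) = eval (fun _ => 0) g := by
          have h2 : constantCoeff (fd g 1) = eval 0 (fd g 1) :=
            (DFunLike.congr_fun eval_zero (fd g 1)).symm
          change constantCoeff (fd g 1) = _
          rw [h2, eval_fd]
          congr 2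
          funext x
          simp
        rw [h1] at hc
        refine ⟨eval (fun _ => 0) g, 1, 0, hc, ?_, ?_⟩
        · rw [h0]
          funext k
          rcases k with ⟨i, j⟩ | i <;> simp [img]
        · rw [eval_fd]
          simp
      · exact exists_img hp h0
    obtain ⟨d, w, z, hd, rfl, h⟩ := key
    obtain ⟨e, s, he, hs, rfl⟩ := exists_squarefree hd
    refine ⟨e, s * w, fun i => s * z i, he, ?_, ?_⟩
    · rw [eval_fd] at h ⊢
      have e1 : (fun x : Fin n × Fin n => (e : ℚ) * (s * z x.1 * (s * z x.2))) =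
          fun x => (e : ℚ) * s ^ 2 * (z x.1 * z x.2) := by
        funext x
        ring
      rw [e1, ← h]
      ring
    · funext k
      rcases k with ⟨i, j⟩ | i
      · simp only [img, Sum.elim_inl]
        ring
      · simp only [img, Sum.elim_inr]
        ring
  · rintro ⟨d, w, z, -, h, rfl⟩
    exact img_onQ h

/-- the nondegenerate rational points -/
def NP (g : MvPolynomial (Fin n × Fin n) ℚ) : Set (QI n → ℚ) :=
  {p | ∃ (d : ℤ) (w : ℚ) (z : Fin n → ℚ), Squarefree d ∧ w ≠ 0 ∧
    (d : ℚ) * w ^ 2 = eval z (fd g (d : ℚ)) ∧ NX (C (d : ℚ) * fd g (d : ℚ)) z ∧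
    p = img (d : ℚ) w z}

/-- the polynomial map -/
noncomputable def imgp (d : ℚ) : QI n → MvPolynomial (Fin (n + 1)) ℚ :=
  Sum.elim (fun x => C d * (X x.1.succ * X x.2.succ)) fun i => X 0 * X i.succ

lemma eval_imgp (d w : ℚ) (z : Fin n → ℚ) :
    (fun k => eval (Fin.cons (d * w) z : Fin (n + 1) → ℚ) (imgp (n := n) d k)) = img d w z := by
  funext k
  rcases k with ⟨i, j⟩ | i
  · simp [imgp, img]
  · simp [imgp, img]

/-- **The closure of the set of the nondegenerate rational points of the quotient.** -/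
theorem NP_SA {g : MvPolynomial (Fin n × Fin n) ℚ} (hg : Adm g) : SA (closure (rl (NP g))) := by
  obtain ⟨D, hD, h⟩ := exists_twists hg
  have e : NP g = ⋃ d ∈ {d | d ∈ D ∧ Squarefree d}, (fun u k => eval u (imgp (n := n) (d : ℚ) k)) ''
      dcN (C (d : ℚ) * fd g (d : ℚ)) := by
    ext p
    simp only [Set.mem_iUnion, exists_prop, Set.mem_image, Set.mem_ofPred_eq]
    constructor
    · rintro ⟨d, w, z, hd, hw, hdw, hN, rfl⟩
      have hd0 : (d : ℚ) ≠ 0 := by exact_mod_cast hd.ne_zero
      refine ⟨d, ⟨h d w z hd hdw, hd⟩, Fin.cons ((d : ℚ) * w) z, ⟨?_, ?_, ?_⟩, eval_imgp _ _ _⟩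
      · rw [Fin.cons_zero]
        exact mul_ne_zero hd0 hw
      · simp only [Fin.cons_zero, Fin.cons_succ, map_mul, eval_C]
        change ((d : ℚ) * w) ^ 2 = (d : ℚ) * eval z (fd g (d : ℚ))
        rw [← hdw]
        ring
      · simpa only [Fin.cons_succ] using hN
    · rintro ⟨d, ⟨-, hd⟩, u, ⟨hu0, hu, hN⟩, rfl⟩
      have hd0 : (d : ℚ) ≠ 0 := by exact_mod_cast hd.ne_zero
      refine ⟨d, u 0 / d, fun k => u k.succ, hd, div_ne_zero hu0 hd0, ?_, hN, ?_⟩
      · rw [map_mul, eval_C] at hu
        rw [div_pow, hu]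
        field_simp
      · rw [← eval_imgp, mul_div_cancel₀ _ hd0]
        have : (Fin.cons (u 0) fun k => u k.succ : Fin (n + 1) → ℚ) = u := Fin.cons_self_tail u
        rw [this]
  rw [e]
  have hDf : {d | d ∈ D ∧ Squarefree d}.Finite := hD.subset fun d hd => hd.1
  exact Kum.SA_biUnion hDf fun d _ => Kum.SA_map (dcN_SA _) _

end Pool.Agent.X296.Hor
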