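import Pool.Agent.X296.Hor.Exp

/-!
# The twists of double covers of `(P¹)ⁿ` with rational points
-/

set_option autoImplicit false

open MvPolynomial

namespace Pool.Agent.X296.Hor

/-- degree at most four in each variable, nonzero corner coefficients -/
structure Adm {F : Type*} [Field F] {n : ℕ} (g : MvPolynomial (Fin n × Fin n) F) : Prop where
  deg : ∀ i, (fd g 1).degreeOf i ≤ 4
  corner : ∀ k : Fin n →₀ ℕ, (∀ i, k i = 0 ∨ k i = 4) → coeff k (fd g 1) ≠ 0

section val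

variable {K : Type*} [Field K] {V : AbsoluteValue K ℝ}

lemma sum_lt (hna : ∀ x y, V (x + y) ≤ max (V x) (V y)) {ι : Type*} (s : Finset ι) (G : ι → K)
    {M : ℝ} (hM : 0 < M) (h : ∀ i ∈ s, V (G i) < M) : V (∑ i ∈ s, G i) < M := by
  classical
  induction s using Finset.induction_on with
  | empty => simpa using hM
  | insert i s hi ih =>
    rw [Finset.sum_insert hi]
    exact (hna _ _).trans_lt (max_lt (h i (Finset.mem_insert_self _ _))
      (ih fun j hj => h j (Finset.mem_insert_of_mem hj)))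

lemma add_eq (hna : ∀ x y, V (x + y) ≤ max (V x) (V y)) {a b : K} (h : V b < V a) :
    V (a + b) = V a := by
  refine le_antisymm ((hna _ _).trans (max_le le_rfl h.le)) ?_
  by_contra hcon
  push Not at hcon
  have h1 : V a ≤ max (V (a + b)) (V (-b)) := by
    have := hna (a + b) (-b)
    rwa [add_neg_cancel_right] at this
  rw [V.map_neg] at h1
  exact absurd h1 (not_le.2 (max_lt hcon h))

lemma V_term {n : ℕ} (k : Fin n →₀ ℕ) (hk : Even (dg k)) (c d : K) (z : Fin n → K) :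
    V (c * (d ^ (dg k / 2) * ∏ i, z i ^ k i)) ^ 2 = V c ^ 2 * ∏ i, V (d * z i ^ 2) ^ k i := by
  obtain ⟨m, hm⟩ := hk
  have h1 : dg k / 2 = m := by omega
  rw [h1, map_mul, map_mul, map_pow, map_prod, mul_pow, mul_pow]
  congr 1
  simp only [map_mul, map_pow, mul_pow]
  rw [Finset.prod_mul_distrib, Finset.prod_pow_eq_pow_sum]
  have h2 : ∑ i, k i = dg k := rfl
  rw [h2, hm, ← Finset.prod_pow]
  congr 1
  · rw [← pow_mul]
    congr 1
    ring
  · refine Finset.prod_congr rfl fun i _ => ?_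
    rw [← pow_mul, ← pow_mul, mul_comm]

/-- the dominating term -/
theorem dominates (hna : ∀ x y, V (x + y) ≤ max (V x) (V y)) {n : ℕ}
    {g : MvPolynomial (Fin n × Fin n) K} (hg : Adm g)
    (hc : ∀ k ∈ (fd g 1).support, V (coeff k (fd g 1)) = 1) {d : K} (z : Fin n → K)
    (ht : ∀ i, V (d * z i ^ 2) ≠ 1) :
    V (eval z (fd g d)) = V (∏ i with 1 < V (d * z i ^ 2), d * z i ^ 2) ^ 2 := by
  classical
  set t : Fin n → ℝ := fun i => V (d * z i ^ 2) with htd
  have ht0 : ∀ i, 0 ≤ t i := fun i => V.nonneg _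
  set S : Finset (Fin n) := Finset.univ.filter fun i => 1 < V (d * z i ^ 2) with hS
  set ks : Fin n →₀ ℕ := Finsupp.equivFunOnFinite.symm fun i => if i ∈ S then 4 else 0 with hks
  have hks1 : ∀ i, ks i = if i ∈ S then 4 else 0 := fun i => rfl
  have hcor : coeff ks (fd g 1) ≠ 0 := hg.corner ks fun i => by
    rw [hks1]
    split_ifs
    · exact Or.inr rfl
    · exact Or.inl rfl
  have hmem : ks ∈ (fd g 1).support := mem_support_iff.2 hcor
  have hgpos : ∀ i, 0 < t i ^ ks i := by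
    intro i
    rw [hks1]
    split_ifs with hi
    · have : 1 < t i := (Finset.mem_filter.1 hi).2
      positivity
    · simp
  have hlt : ∀ k ∈ (fd g 1).support, k ≠ ks → ∏ i, t i ^ k i < ∏ i, t i ^ ks i := by
    intro k hk hne
    have hk4 : ∀ i, k i ≤ 4 := fun i => (monomial_le_degreeOf i hk).trans (hg.deg i)
    have hle : ∀ i, t i ^ k i ≤ t i ^ ks i := by
      intro i
      rw [hks1]
      split_ifs with hi
      · have : 1 < t i := (Finset.mem_filter.1 hi).2
        exact pow_le_pow_right₀ this.le (hk4 i)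
      · have : t i ≤ 1 := not_lt.1 fun h => hi (Finset.mem_filter.2 ⟨Finset.mem_univ _, h⟩)
        rw [pow_zero]
        exact pow_le_one₀ (ht0 i) this
    obtain ⟨i₀, hi₀⟩ : ∃ i, k i ≠ ks i := by
      by_contra hcon
      push Not at hcon
      exact hne (Finsupp.ext hcon)
    have hlt0 : t i₀ ^ k i₀ < t i₀ ^ ks i₀ := by
      rw [hks1] at hi₀ ⊢
      split_ifs with hi
      · rw [if_pos hi] at hi₀
        have : 1 < t i₀ := (Finset.mem_filter.1 hi).2
        exact pow_lt_pow_right₀ this (lt_of_le_of_ne (hk4 i₀) hi₀)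
      · rw [if_neg hi] at hi₀
        have : t i₀ < 1 := lt_of_le_of_ne
          (not_lt.1 fun h => hi (Finset.mem_filter.2 ⟨Finset.mem_univ _, h⟩)) (ht i₀)
        rw [pow_zero]
        exact pow_lt_one₀ (ht0 i₀) this hi₀
    by_cases h0 : ∃ i, t i ^ k i = 0
    · obtain ⟨i, hi⟩ := h0
      rw [Finset.prod_eq_zero (Finset.mem_univ i) hi]
      exact Finset.prod_pos fun i _ => hgpos i
    · push Not at h0
      exact Finset.prod_lt_prod (fun i _ => lt_of_le_of_ne (pow_nonneg (ht0 i) _) (h0 i).symm)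
        (fun i _ => hle i) ⟨i₀, Finset.mem_univ _, hlt0⟩
  set T : (Fin n →₀ ℕ) → K := fun k => coeff k (fd g 1) * (d ^ (dg k / 2) * ∏ i, z i ^ k i) with hT
  have hT2 : ∀ k ∈ (fd g 1).support, V (T k) ^ 2 = ∏ i, t i ^ k i := by
    intro k hk
    rw [hT]
    simp only
    rw [V_term k (even_of_mem g k hk), hc k hk, one_pow, one_mul]
  have hpos : 0 < V (T ks) := by
    have h1 : 0 < V (T ks) ^ 2 := by
      rw [hT2 ks hmem]
      exact Finset.prod_pos fun i _ => hgpos i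
    exact lt_of_le_of_ne (V.nonneg _) fun h => by
      rw [← h] at h1
      norm_num at h1
  have hV : V (eval z (fd g d)) = V (T ks) := by
    rw [eval_expand, ← Finset.add_sum_erase _ _ hmem]
    refine add_eq hna (sum_lt hna _ _ hpos fun k hk => ?_)
    obtain ⟨h1, h2⟩ := Finset.mem_erase.1 hk
    refine lt_of_pow_lt_pow_left₀ 2 hpos.le ?_
    change V (T k) ^ 2 < V (T ks) ^ 2
    rw [hT2 k h2, hT2 ks hmem]
    exact hlt k h2 h1
  rw [hV]
  have h3 : V (T ks) ^ 2 = (V (∏ i ∈ S, d * z i ^ 2) ^ 2) ^ 2 := by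
    rw [hT2 ks hmem, map_prod, ← pow_mul]
    have h4 : ∀ i, t i ^ ks i = if i ∈ S then t i ^ 4 else 1 := by
      intro i
      rw [hks1]
      split_ifs
      · rfl
      · exact pow_zero _
    simp only [h4]
    rw [Finset.prod_ite_mem, Finset.univ_inter, ← Finset.prod_pow]
  exact (pow_left_inj₀ (V.nonneg _) (sq_nonneg _) two_ne_zero).1 h3

end val

section rat

variable {n : ℕ}

/-- the absolute value -/
noncomputable def Vp (p : ℕ) [Fact p.Prime] : AbsoluteValue ℚ ℝ := Rat.AbsoluteValue.padic p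

lemma Vp_eq (p : ℕ) [Fact p.Prime] (x : ℚ) : Vp p x = ((padicNorm p x : ℚ) : ℝ) :=
  Rat.AbsoluteValue.padic_eq_padicNorm p x

lemma Vp_na (p : ℕ) [Fact p.Prime] (x y : ℚ) : Vp p (x + y) ≤ max (Vp p x) (Vp p y) := by
  rw [Vp_eq, Vp_eq, Vp_eq]
  have := padicNorm.nonarchimedean (p := p) (q := x) (r := y)
  exact_mod_cast this

lemma Vp_sq_ne (p : ℕ) [Fact p.Prime] (x : ℚ) : Vp p x ^ 2 ≠ (p : ℝ) := by
  have hp1 : (1 : ℝ) < p := by exact_mod_cast (Fact.out : p.Prime).one_lt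
  intro h
  have hx : x ≠ 0 := by
    rintro rfl
    rw [map_zero, zero_pow two_ne_zero] at h
    linarith
  rw [Vp_eq, padicNorm.eq_zpow_of_nonzero hx] at h
  push_cast at h
  rw [← zpow_natCast, ← zpow_mul] at h
  have h1 : (p : ℝ) ^ (-padicValRat p x * ((2 : ℕ) : ℤ)) = (p : ℝ) ^ (1 : ℤ) := by
    rw [h, zpow_one]
  have h2 := zpow_right_injective₀ (by linarith) (by linarith) h1
  push_cast at h2
  omega

/-- **the places of good reduction do not ramify** -/
theorem not_dvd (p : ℕ) [Fact p.Prime] {g : MvPolynomial (Fin n × Fin n) ℚ} (hg : Adm g)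
    (hc : ∀ k ∈ (fd g 1).support, Vp p (coeff k (fd g 1)) = 1) {d : ℤ} (hd : Squarefree d) {w : ℚ}
    {z : Fin n → ℚ} (h : (d : ℚ) * w ^ 2 = eval z (fd g (d : ℚ))) : ¬ (p : ℤ) ∣ d := by
  intro hpd
  have hpp : p.Prime := Fact.out
  have hp0 : (p : ℝ) ≠ 0 := by exact_mod_cast hpp.ne_zero
  have hVd : Vp p (d : ℚ) = (p : ℝ)⁻¹ := by
    obtain ⟨e, rfl⟩ := hpd
    have he : ¬ (p : ℤ) ∣ e := by
      intro hpe
      have h1 : (p : ℤ) * p ∣ p * e := mul_dvd_mul_left _ hpe
      have h2 := hd _ h1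
      have h3 : p = 1 := by
        have := Int.isUnit_iff.1 h2
        omega
      exact hpp.one_lt.ne' h3
    push_cast
    rw [map_mul, Vp_eq, Vp_eq]
    have h1 : padicNorm p ((e : ℤ) : ℚ) = 1 := (padicNorm.int_eq_one_iff e).2 he
    rw [h1, padicNorm.padicNorm_p hpp.one_lt]
    push_cast
    ring
  have ht : ∀ i, Vp p ((d : ℚ) * z i ^ 2) ≠ 1 := by
    intro i hi
    rw [map_mul, map_pow, hVd] at hi
    apply Vp_sq_ne p (z i)
    field_simp at hi
    linarith
  have h1 := dominates (Vp_na p) hg hc z ht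
  rw [← h, map_mul, map_pow, hVd] at h1
  set y : ℚ := ∏ i with 1 < Vp p ((d : ℚ) * z i ^ 2), (d : ℚ) * z i ^ 2 with hy
  have hy0 : y ≠ 0 := by
    rw [hy]
    refine Finset.prod_ne_zero_iff.2 fun i hi h0 => ?_
    have := (Finset.mem_filter.1 hi).2
    rw [h0, map_zero] at this
    linarith
  have hyV : Vp p y ≠ 0 := (Vp p).ne_zero hy0
  apply Vp_sq_ne p (w / y)
  rw [map_div₀, div_pow]
  rw [div_eq_iff (pow_ne_zero 2 hyV), ← h1]
  field_simp

lemma bad_primes {c : ℚ} (hc : c ≠ 0) : {p : ℕ | p.Prime ∧ padicNorm p c ≠ 1}.Finite := by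
  refine (c.num.natAbs.primeFactors ∪ c.den.primeFactors).finite_toSet.subset ?_
  rintro p ⟨hp, hpc⟩
  have : Fact p.Prime := ⟨hp⟩
  by_contra hcon
  apply hpc
  rw [Finset.mem_coe, Finset.mem_union, not_or, Nat.mem_primeFactors, Nat.mem_primeFactors] at hcon
  have h1 : ¬ (p : ℤ) ∣ c.num := fun h => hcon.1
    ⟨hp, Int.natCast_dvd.1 h, Int.natAbs_ne_zero.2 (Rat.num_ne_zero.2 hc)⟩
  have h2 : ¬ (p : ℤ) ∣ (c.den : ℤ) := fun h => hcon.2
    ⟨hp, Int.natCast_dvd_natCast.1 h, c.den_ne_zero⟩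
  have h3 : c = ((c.num : ℤ) : ℚ) / ((c.den : ℤ) : ℚ) := by
    rw [Int.cast_natCast]
    exact (Rat.num_div_den c).symm
  rw [h3, padicNorm.div, (padicNorm.int_eq_one_iff _).2 h1, (padicNorm.int_eq_one_iff _).2 h2,
    div_one]

lemma squarefree_finite {S : Set ℕ} (hS : S.Finite) :
    {d : ℤ | Squarefree d ∧ ∀ p : ℕ, p.Prime → (p : ℤ) ∣ d → p ∈ S}.Finite := by
  set M : ℕ := ∏ p ∈ hS.toFinset.filter Nat.Prime, p with hM
  refine (Set.finite_Icc (-(M : ℤ)) M).subset ?_
  rintro d ⟨hd, hp⟩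
  have h1 : Squarefree d.natAbs := Int.squarefree_natAbs.2 hd
  have h2 : d.natAbs ≤ M := by
    rw [← Nat.prod_primeFactors_of_squarefree h1, hM]
    refine Finset.prod_le_prod_of_subset_of_one_le' ?_ ?_
    · intro q hq
      obtain ⟨h3, h4, -⟩ := Nat.mem_primeFactors.1 hq
      rw [Finset.mem_filter, Set.Finite.mem_toFinset]
      exact ⟨hp q h3 (Int.natCast_dvd.2 h4), h3⟩
    · intro q hq _
      exact (Finset.mem_filter.1 hq).2.one_lt.le
  rw [Set.mem_Icc]
  omega

/-- **only finitely many twists have rational points** -/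
theorem exists_twists {g : MvPolynomial (Fin n × Fin n) ℚ} (hg : Adm g) :
    ∃ D : Set ℤ, D.Finite ∧ ∀ (d : ℤ) (w : ℚ) (z : Fin n → ℚ), Squarefree d →
      (d : ℚ) * w ^ 2 = eval z (fd g (d : ℚ)) → d ∈ D := by
  classical
  set S : Set ℕ := ⋃ k ∈ (fd g 1).support, {p : ℕ | p.Prime ∧ padicNorm p (coeff k (fd g 1)) ≠ 1}
    with hS
  have hSf : S.Finite := Set.Finite.biUnion (fd g 1).support.finite_toSet fun k hk =>
    bad_primes (mem_support_iff.1 hk)
  refine ⟨_, squarefree_finite hSf, fun d w z hd h => ⟨hd, fun p hp hpd => ?_⟩⟩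
  by_contra hcon
  have : Fact p.Prime := ⟨hp⟩
  refine not_dvd p hg (fun k hk => ?_) hd h hpd
  by_contra hne
  refine hcon (Set.mem_iUnion₂.2 ⟨k, hk, hp, fun h1 => hne ?_⟩)
  rw [Vp_eq, h1, Rat.cast_one]

/-- squarefree representatives -/
lemma exists_squarefree {d : ℚ} (hd : d ≠ 0) : ∃ (e : ℤ) (s : ℚ), Squarefree e ∧ s ≠ 0 ∧
    d = e * s ^ 2 := by
  obtain ⟨a, b, hab, ha⟩ := Nat.sq_mul_squarefree (d.num.natAbs * d.den)
  have hden : (d.den : ℚ) ≠ 0 := by exact_mod_cast d.den_ne_zero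
  have hN : d.num.natAbs * d.den ≠ 0 :=
    mul_ne_zero (Int.natAbs_ne_zero.2 (Rat.num_ne_zero.2 hd)) d.den_ne_zero
  have hb : b ≠ 0 := by
    rintro rfl
    rw [zero_pow two_ne_zero, zero_mul] at hab
    exact hN hab.symm
  have hb' : (b : ℚ) ≠ 0 := by exact_mod_cast hb
  refine ⟨d.num.sign * a, b / d.den, ?_, div_ne_zero hb' hden, ?_⟩
  · rw [← Int.squarefree_natAbs, Int.natAbs_mul, Int.natAbs_natCast,
      Int.natAbs_sign_of_ne_zero (Rat.num_ne_zero.2 hd), one_mul]
    exact ha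
  · have h1 : (d.num : ℚ) = (d.num.sign : ℚ) * (d.num.natAbs : ℚ) := by
      have := congrArg (Int.cast : ℤ → ℚ) (Int.sign_mul_natAbs d.num)
      rw [Int.cast_mul, Int.cast_natCast] at this
      exact this.symm
    have h2 : (b : ℚ) ^ 2 * a = d.num.natAbs * d.den := by exact_mod_cast hab
    have h3 : d = d.num / d.den := (Rat.num_div_den d).symm
    push_cast
    rw [div_pow, ← mul_div_assoc]
    have h4 : (d.num.sign : ℚ) * a * (b : ℚ) ^ 2 = d.num * d.den := by
      rw [h1]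
      linear_combination (d.num.sign : ℚ) * h2
    rw [h4]
    nth_rewrite 1 [h3]
    field_simp

end rat

end Pool.Agent.X296.Hor
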